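import Pool.Agent.Y116.MT.Defs

/-!
# t-structures which are motivic up to small errors: definitions
-/

set_option autoImplicit false

open CategoryTheory Limits MonoidalCategory Pretriangulated Triangulated

namespace Pool.Agent.V1178.MT

open Pool.Agent.Y116.MT

universe v u w

section

variable {C : Type u} [Category.{v} C] [MonoidalCategory C]

/-- The tensor powers `X ⊗ ⋯ ⊗ X`. -/
def pow (X : C) : ℕ → C
  | 0 => 𝟙_ C
  | n + 1 => X ⊗ pow X n

end

section

variable {C : Type u} [Category.{v} C] [Preadditive C] [HasZeroObject C] [HasShift C ℤ]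
  [∀ n : ℤ, (shiftFunctor C n).Additive] [Pretriangulated C] [MonoidalCategory C]
  [SymmetricCategory C] [TensorTriangulated C]

/-- The realisation `R` is conservative: it detects the zero objects. -/
def Conservative {E : Type w} [Field E] (R : Realisation C E) : Prop :=
  ∀ X : C, (∀ i : ℤ, IsZero (R.H.obj (X⟦i⟧))) → IsZero X

/-- The realisation `R` is t-exact up to the error `N`: the realisation of an object in degrees
`≤ 0` lies in degrees `≤ N`, and the realisation of an object in degrees `≥ 0` lies in degrees
`≥ -N`. -/
def ExactUpTo (t : TStructure C) {E : Type w} [Field E] (R : Realisation C E) (N : ℤ) : Prop :=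
  ∀ X : C, (t.le 0 X → ∀ i : ℤ, N < i → IsZero (R.H.obj (X⟦i⟧))) ∧
    (t.ge 0 X → ∀ i : ℤ, i < -N → IsZero (R.H.obj (X⟦i⟧)))

/-- The tensor powers are t-exact up to the error `θ n + K`: for `X` in degrees `≤ 0` the `n`-th
tensor power of `X` is in degrees `≤ θ n + K`, and for `X` in degrees `≥ 0` it is in degrees
`≥ -(θ n + K)`. -/
def PowersUpTo (t : TStructure C) (θ K : ℝ) : Prop :=
  ∀ (X : C) (n : ℕ) (m : ℤ), θ * n + K ≤ m →
    (t.le 0 X → t.le m (pow X n)) ∧ (t.ge 0 X → t.ge (-m) (pow X n))

/-- A t-structure is almost motivic for the realisations `R l` if some `R l` is conservative, every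
`R l` is t-exact up to a bounded error, and the tensor powers are t-exact up to an error which is
linear in the exponent, of slope less than one. Nothing is assumed on tensor products of different
objects, and it is not assumed that the t-structure is non-degenerate. -/
structure IsAlmostMotivic (t : TStructure C) {Λ : Type*} {E : Λ → Type w} [∀ l, Field (E l)]
    (R : ∀ l, Realisation C (E l)) : Prop where
  conservative : ∃ l, Conservative (R l)
  exact (l : Λ) : ∃ N : ℤ, ExactUpTo t (R l) N
  powers : ∃ θ K : ℝ, θ < 1 ∧ PowersUpTo t θ K

end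

end Pool.Agent.V1178.MT
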