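import Pool.Agent.Y116.MT.Mot
import Pool.Agent.V1178.MT.Defs

/-!
# Almost motivic t-structures are motivic
-/

set_option autoImplicit false
set_option linter.unusedSectionVars false
set_option linter.unusedSimpArgs false
set_option backward.isDefEq.respectTransparency false
set_option backward.defeqAttrib.useBackward true

open CategoryTheory Limits MonoidalCategory Pretriangulated Triangulated

namespace Pool.Agent.V1178.MT

open Pool.Agent.Y116.MT

universe v u w

section

variable {C : Type u} [Category.{v} C] [Preadditive C] [HasZeroObject C] [HasShift C ℤ]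
  [∀ n : ℤ, (shiftFunctor C n).Additive] [Pretriangulated C] [MonoidalCategory C]
  [SymmetricCategory C] [TensorTriangulated C] [MonoidalPreadditive C] [RightRigidCategory C]
  {E : Type w} [Field E] {R : Realisation C E} {t : TStructure C}

/-- The cohomology of the tensor powers of `X` in the multiples of a degree where the cohomology of
`X` is not zero. -/
lemma H_pow {X : C} {i : ℤ} (h : ¬ IsZero (R.H.obj (X⟦i⟧))) (n : ℕ) :
    ¬ IsZero (R.H.obj ((pow X n)⟦(n : ℤ) * i⟧)) := by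
  induction n with
  | zero =>
    intro h0
    exact not_isZero_H_unit R (h0.of_iso (R.H.mapIso
      ((shiftFunctorZero' C (((0 : ℕ) : ℤ) * i) (by simp)).app (𝟙_ C)).symm))
  | succ n ih =>
    have h1 := not_isZero_tensor h ih
    rwa [show i + (n : ℤ) * i = ((n + 1 : ℕ) : ℤ) * i by push_cast; ring] at h1

lemma vanish_le {N : ℤ} (he : ExactUpTo t R N) {X : C} {m : ℤ} (h : t.le m X) {i : ℤ}
    (hi : m + N < i) : IsZero (R.H.obj (X⟦i⟧)) := by
  have h0 : t.IsLE X m := ⟨h⟩
  have h1 : t.IsLE (X⟦m⟧) 0 := t.isLE_shift X m m 0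
  exact ((he _).1 h1.le (i - m) (by omega)).of_iso
    (R.H.mapIso ((shiftFunctorAdd' C m (i - m) i (by omega)).app X))

lemma vanish_ge {N : ℤ} (he : ExactUpTo t R N) {X : C} {m : ℤ} (h : t.ge m X) {i : ℤ}
    (hi : i < m - N) : IsZero (R.H.obj (X⟦i⟧)) := by
  have h0 : t.IsGE X m := ⟨h⟩
  have h1 : t.IsGE (X⟦m⟧) 0 := t.isGE_shift X m m 0
  exact ((he _).2 h1.ge (i - m) (by omega)).of_iso
    (R.H.mapIso ((shiftFunctorAdd' C m (i - m) i (by omega)).app X))

/-- The tensor power trick. -/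
theorem exact_of_upTo {N : ℤ} (he : ExactUpTo t R N) {θ K : ℝ} (hθ : θ < 1)
    (hp : PowersUpTo t θ K) : TExact t R := by
  obtain ⟨n, hn⟩ := exists_nat_gt ((K + 1 + N) / (1 - θ))
  have hn1 : θ * n + K + 1 + N < n := by
    rw [div_lt_iff₀ (by linarith)] at hn
    nlinarith
  set m : ℤ := ⌈θ * n + K⌉ with hm
  have hm1 : θ * n + K ≤ m := Int.le_ceil _
  have hm2 : (m : ℝ) < θ * n + K + 1 := Int.ceil_lt_add_one _
  have hm3 : m + N < n := by
    have : ((m + N : ℤ) : ℝ) < ((n : ℤ) : ℝ) := by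
      push_cast
      linarith
    exact_mod_cast this
  constructor
  · intro X hX i hi
    by_contra h
    have h1 := (hp X n m hm1).1 hX
    refine H_pow h n (vanish_le he h1 (lt_of_lt_of_le hm3 ?_))
    nlinarith [Int.natCast_nonneg n]
  · intro X hX i hi
    by_contra h
    have h1 := (hp X n m hm1).2 hX
    refine H_pow h n (vanish_ge he h1 (lt_of_le_of_lt (b := -(n : ℤ)) ?_ (by omega)))
    nlinarith [Int.natCast_nonneg n]

/-- The tensor product of two objects with cohomology in degrees `≤ 0`. -/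
lemma tensor_vanish_pos {X Y : C} (hX : ∀ i : ℤ, 0 < i → IsZero (R.H.obj (X⟦i⟧)))
    (hY : ∀ i : ℤ, 0 < i → IsZero (R.H.obj (Y⟦i⟧))) {n : ℤ} (hn : 0 < n) :
    IsZero (R.H.obj ((X ⊗ Y)⟦n⟧)) := by
  have h0 : IsZero (R.H.obj (X ⊗ Y⟦n⟧)) := by
    rw [ModuleCat.isZero_iff_subsingleton]
    have h1 : ∀ i : ℤ, Subsingleton (R.H.obj (X⟦i⟧) ⊗ R.H.obj (Y⟦n⟧⟦-i⟧) : ModuleCat.{w} E) := by
      intro i
      by_cases hi : 0 < i
      · exact tensor_subsingleton_left (hX i hi)
      · exact tensor_subsingleton_right ((hY (n + -i) (by omega)).of_iso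
          (R.H.mapIso ((shiftFunctorAdd C n (-i)).app Y).symm))
    have h2 : Subsingleton (DirectSum ℤ (fun i : ℤ =>
        (R.H.obj (X⟦i⟧) ⊗ R.H.obj (Y⟦n⟧⟦-i⟧) : ModuleCat.{w} E))) := by
      constructor
      intro x y
      ext i
      have := h1 i
      exact Subsingleton.elim _ _
    exact (R.kunneth X (Y⟦n⟧)).2.subsingleton
  exact h0.of_iso (R.H.mapIso (rShift X Y n).symm)

/-- The tensor product of two objects with cohomology in degrees `≥ 0`. -/
lemma tensor_vanish_neg {X Y : C} (hX : ∀ i : ℤ, i < 0 → IsZero (R.H.obj (X⟦i⟧)))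
    (hY : ∀ i : ℤ, i < 0 → IsZero (R.H.obj (Y⟦i⟧))) {n : ℤ} (hn : n < 0) :
    IsZero (R.H.obj ((X ⊗ Y)⟦n⟧)) := by
  have h0 : IsZero (R.H.obj (X ⊗ Y⟦n⟧)) := by
    rw [ModuleCat.isZero_iff_subsingleton]
    have h1 : ∀ i : ℤ, Subsingleton (R.H.obj (X⟦i⟧) ⊗ R.H.obj (Y⟦n⟧⟦-i⟧) : ModuleCat.{w} E) := by
      intro i
      by_cases hi : i < 0
      · exact tensor_subsingleton_left (hX i hi)
      · exact tensor_subsingleton_right ((hY (n + -i) (by omega)).of_iso
          (R.H.mapIso ((shiftFunctorAdd C n (-i)).app Y).symm))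
    have h2 : Subsingleton (DirectSum ℤ (fun i : ℤ =>
        (R.H.obj (X⟦i⟧) ⊗ R.H.obj (Y⟦n⟧⟦-i⟧) : ModuleCat.{w} E))) := by
      constructor
      intro x y
      ext i
      have := h1 i
      exact Subsingleton.elim _ _
    exact (R.kunneth X (Y⟦n⟧)).2.subsingleton
  exact h0.of_iso (R.H.mapIso (rShift X Y n).symm)

/-- The aisle is detected by a conservative t-exact realisation. -/
lemma isLE_of (hc : Conservative R) (he : TExact t R) {X : C} {n : ℤ}
    (hX : ∀ i : ℤ, n < i → IsZero (R.H.obj (X⟦i⟧))) : t.IsLE X n := by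
  obtain ⟨A, B, hA, hB, f, g, h, hT⟩ := t.exists_triangle X n (n + 1) rfl
  have hA1 : t.IsLE A n := ⟨hA⟩
  have hB1 : t.IsGE B (n + 1) := ⟨hB⟩
  have hBz : IsZero B := by
    apply hc
    intro i
    by_cases hi : i < n + 1
    · exact he.isGE hB1 i hi
    · exact hz3 R.H hT i (hX i (by omega)) (he.isLE hA1 _ (by omega))
  have h6 := isIso1_of_isZero3 hT hBz
  exact @TStructure.isLE_of_iso _ _ _ _ _ _ _ t _ _ (asIso f) _ hA1

/-- The coaisle is detected by a conservative t-exact realisation. -/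
lemma isGE_of (hc : Conservative R) (he : TExact t R) {X : C} {n : ℤ}
    (hX : ∀ i : ℤ, i < n → IsZero (R.H.obj (X⟦i⟧))) : t.IsGE X n := by
  obtain ⟨A, B, hA, hB, f, g, h, hT⟩ := t.exists_triangle X (n - 1) n (by omega)
  have hA1 : t.IsLE A (n - 1) := ⟨hA⟩
  have hB1 : t.IsGE B n := ⟨hB⟩
  have hAz : IsZero A := by
    apply hc
    intro i
    by_cases hi : n - 1 < i
    · exact he.isLE hA1 i hi
    · exact hz1 R.H hT i (hX i (by omega)) (he.isGE hB1 _ (by omega))
  have h6 := isIso2_of_isZero1 hT hAz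
  exact @TStructure.isGE_of_iso _ _ _ _ _ _ _ t _ _ (asIso g).symm _ hB1

/-- An almost motivic t-structure is motivic. -/
theorem motivic_of_almost {Λ : Type*} {E : Λ → Type w} [∀ l, Field (E l)]
    {R : ∀ l, Realisation C (E l)} (h : IsAlmostMotivic t R) : IsMotivic t R := by
  obtain ⟨θ, K, hθ, hp⟩ := h.powers
  have he : ∀ l, TExact t (R l) := fun l => by
    obtain ⟨N, hN⟩ := h.exact l
    exact exact_of_upTo hN hθ hp
  obtain ⟨l, hc⟩ := h.conservative
  refine ⟨fun X hX => ?_, fun X hX => ?_, fun X Y hX hY => ?_, fun X Y hX hY => ?_,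
    fun l => (he l).le, fun l => (he l).ge⟩
  · exact hc X fun i => (he l).isLE (n := i - 1) ⟨hX _⟩ i (by omega)
  · exact hc X fun i => (he l).isGE (n := i + 1) ⟨hX _⟩ i (by omega)
  · exact (isLE_of hc (he l) fun i hi => tensor_vanish_pos ((he l).le X hX) ((he l).le Y hY) hi).le
  · exact (isGE_of hc (he l) fun i hi => tensor_vanish_neg ((he l).ge X hX) ((he l).ge Y hY) hi).ge

end

section

variable {C : Type u} [Category.{v} C] [Preadditive C] [HasZeroObject C] [HasShift C ℤ]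
  [∀ n : ℤ, (shiftFunctor C n).Additive] [Pretriangulated C] [MonoidalCategory C]
  [SymmetricCategory C] [TensorTriangulated C] [MonoidalPreadditive C] [RightRigidCategory C]
  [IsTriangulated C] {t : TStructure C}

/-- A motivic t-structure is almost motivic. -/
theorem almost_of_motivic {Λ : Type*} [Nonempty Λ] {E : Λ → Type w} [∀ l, Field (E l)]
    {R : ∀ l, Realisation C (E l)} (hid : ∀ e : 𝟙_ C ⟶ 𝟙_ C, e ≫ e = e → e = 0 ∨ e = 𝟙 _)
    (h : IsMotivic t R) : IsAlmostMotivic t R := by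
  have ht : TensorCompat t := ⟨h.tensor_le, h.tensor_ge⟩
  have hu : Hrt t (𝟙_ C) := unit_hrt ht h.nondeg_le h.nondeg_ge
  have he : ∀ l, TExact t (R l) := fun l => ⟨h.exact_le l, h.exact_ge l⟩
  obtain ⟨l⟩ := ‹Nonempty Λ›
  refine ⟨⟨l, fun X hX => conservative ht (he l) hu hid h.nondeg_le h.nondeg_ge hX⟩,
    fun l => ⟨0, fun X => ⟨h.exact_le l X, fun hX i hi => h.exact_ge l X hX i (by simpa using hi)⟩⟩,
    0, 0, by norm_num, fun X n m hm => ?_⟩
  have hm0 : 0 ≤ m := by
    have : (0 : ℝ) ≤ m := by simpa using hm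
    exact_mod_cast this
  constructor
  · intro hX
    have h1 : t.IsLE (pow X n) 0 := by
      induction n with
      | zero => exact hu.1
      | succ n ih => exact ⟨h.tensor_le _ _ hX (ih (by simpa using hm)).le⟩
    exact (t.isLE_of_le (pow X n) 0 m hm0).le
  · intro hX
    have h1 : t.IsGE (pow X n) 0 := by
      induction n with
      | zero => exact hu.2
      | succ n ih => exact ⟨h.tensor_ge _ _ hX (ih (by simpa using hm)).ge⟩
    exact (t.isGE_of_ge (pow X n) (-m) 0 (by omega)).ge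

/-- A t-structure whose tensor powers are exact up to an error of slope less than one and which is
at bounded distance from a motivic t-structure is equal to it. -/
theorem eq_of_near {Λ : Type*} [Nonempty Λ] {E : Λ → Type w} [∀ l, Field (E l)]
    {R : ∀ l, Realisation C (E l)} (hid : ∀ e : 𝟙_ C ⟶ 𝟙_ C, e ≫ e = e → e = 0 ∨ e = 𝟙 _)
    (h : IsMotivic t R) {t' : TStructure C} {θ K : ℝ} (hθ : θ < 1) (hp : PowersUpTo t' θ K) {N : ℤ}
    (hle : ∀ X, t'.le 0 X → t.le N X) (hge : ∀ X, t'.ge 0 X → t.ge (-N) X) (X : C) (n : ℤ) :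
    (t'.le n X ↔ t.le n X) ∧ (t'.ge n X ↔ t.ge n X) := by
  have ha := almost_of_motivic hid h
  have he0 : ∀ l, ExactUpTo t (R l) 0 := fun l X =>
    ⟨h.exact_le l X, fun hX i hi => h.exact_ge l X hX i (by simpa using hi)⟩
  have ha' : IsAlmostMotivic t' R := by
    refine ⟨ha.conservative, fun l => ⟨N, fun X => ⟨fun hX i hi => ?_, fun hX i hi => ?_⟩⟩,
      θ, K, hθ, hp⟩
    · exact vanish_le (he0 l) (hle X hX) (by omega)
    · exact vanish_ge (he0 l) (hge X hX) (by omega)
  have h' := motivic_of_almost ha'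
  obtain ⟨l, hc⟩ := ha.conservative
  have e1 : TExact t (R l) := ⟨h.exact_le l, h.exact_ge l⟩
  have e2 : TExact t' (R l) := ⟨h'.exact_le l, h'.exact_ge l⟩
  refine ⟨⟨fun hX => ?_, fun hX => ?_⟩, ⟨fun hX => ?_, fun hX => ?_⟩⟩
  · exact (isLE_of hc e1 fun i hi => e2.isLE ⟨hX⟩ i hi).le
  · exact (isLE_of hc e2 fun i hi => e1.isLE ⟨hX⟩ i hi).le
  · exact (isGE_of hc e1 fun i hi => e2.isGE ⟨hX⟩ i hi).ge
  · exact (isGE_of hc e2 fun i hi => e1.isGE ⟨hX⟩ i hi).ge

end

end Pool.Agent.V1178.MT
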